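import Mathlib

section

set_option autoImplicit false

/-!
# A product formula modulo the cyclotomic polynomial
-/

namespace Pool.Agent.Lib.MP_9a92d3_gt

open Polynomial

theorem prod_one_sub_mul_pow {R : Type*} [CommRing R] [IsDomain R] {ζ : R} {m : ℕ} (hm : 0 < m)
    (h : IsPrimitiveRoot ζ m) (y : R) :
    ∏ l ∈ Finset.range m, (1 - y * ζ ^ l) = 1 - y ^ m := by
  have key := h.pow_sub_pow_eq_prod_sub_mul 1 y hm
  rw [one_pow] at key
  rw [key]
  have : NeZero m := ⟨hm.ne'⟩
  refine Finset.prod_nbij (fun l => ζ ^ l) ?_ ?_ ?_ ?_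
  · intro l _
    rw [Polynomial.mem_nthRootsFinset hm, ← pow_mul, mul_comm, pow_mul, h.pow_eq_one, one_pow]
  · intro i hi j hj hij
    exact h.pow_inj (Finset.mem_range.mp hi) (Finset.mem_range.mp hj) hij
  · intro a ha
    have ha' : a ^ m = 1 := (Polynomial.mem_nthRootsFinset hm _).mp ha
    obtain ⟨i, hi, rfl⟩ := h.eq_pow_of_pow_eq_one ha'
    exact ⟨i, Finset.mem_coe.mpr (Finset.mem_range.mpr hi), rfl⟩
  · intro l _
    ring

/-- the generic product -/
noncomputable def gprod (m : ℕ) : ℤ[X][X] := ∏ l ∈ Finset.range m, (1 - X * C (X ^ l))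

theorem key_dvd (m : ℕ) (hm : 0 < m) :
    ∃ h : ℤ[X][X], gprod m = 1 - X ^ m + C (cyclotomic m ℤ) * h := by
  have key : (C (cyclotomic m ℤ) : ℤ[X][X]) ∣ gprod m - (1 - X ^ m) := by
    rw [C_dvd_iff_dvd_coeff]
    intro i
    have hζ := Complex.isPrimitiveRoot_exp m hm.ne'
    set ζ := Complex.exp (2 * Real.pi * Complex.I / m) with hζdef
    rw [cyclotomic_eq_minpoly hζ hm]
    refine minpoly.isIntegrallyClosed_dvd (hζ.isIntegral hm) ?_
    set f : ℤ[X] →+* ℂ := ((aeval ζ : ℤ[X] →ₐ[ℤ] ℂ) : ℤ[X] →+* ℂ) with hf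
    have h1 : aeval ζ ((gprod m - (1 - X ^ m)).coeff i) =
        ((gprod m - (1 - X ^ m)).map f).coeff i := by
      rw [coeff_map]
      rfl
    rw [h1]
    have h2 : (gprod m - (1 - X ^ m)).map f = 0 := by
      have hζ' : IsPrimitiveRoot (C ζ : ℂ[X]) m := hζ.map_of_injective C_injective
      have h3 := prod_one_sub_mul_pow hm hζ' (X : ℂ[X])
      rw [Polynomial.map_sub, Polynomial.map_sub, Polynomial.map_one, Polynomial.map_pow,
        Polynomial.map_X, ← h3, gprod, Polynomial.map_prod, sub_eq_zero]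
      refine Finset.prod_congr rfl fun l _ => ?_
      rw [Polynomial.map_sub, Polynomial.map_one, Polynomial.map_mul, Polynomial.map_X,
        Polynomial.map_C, ← C_pow]
      congr 3
      rw [hf]
      simp
    rw [h2, coeff_zero]
  obtain ⟨h, hh⟩ := key
  exact ⟨h, by rw [← hh]; ring⟩

/-- In a commutative ring with an element `z` annihilated by the `m`-th cyclotomic polynomial. -/
theorem prod_eq_of_cyclotomic {R : Type*} [CommRing R] (m : ℕ) (hm : 0 < m) (x z : R)
    (hz : aeval z (cyclotomic m ℤ) = 0) :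
    ∏ l ∈ Finset.range m, (1 - x * z ^ l) = 1 - x ^ m := by
  obtain ⟨h, hh⟩ := key_dvd m hm
  set f : ℤ[X] →+* R := ((aeval z : ℤ[X] →ₐ[ℤ] R) : ℤ[X] →+* R) with hf
  have h1 := congrArg (eval₂ f x) hh
  have hz' : f (cyclotomic m ℤ) = 0 := hz
  rw [gprod, eval₂_finsetProd, eval₂_add, eval₂_sub, eval₂_one, eval₂_X_pow, eval₂_mul, eval₂_C, hz',
    zero_mul, add_zero] at h1
  rw [← h1]
  refine Finset.prod_congr rfl fun l _ => ?_
  rw [eval₂_sub, eval₂_one, eval₂_mul, eval₂_X, eval₂_C]
  congr 2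
  rw [hf]
  simp

end Pool.Agent.Lib.MP_9a92d3_gt
end

section

set_option autoImplicit false

/-!
# Spectral facts about symmetric integral matrices
-/

namespace Pool.Agent.Lib.MP_9a92d3_gt

open Matrix Polynomial

variable {ι : Type} [Fintype ι] [DecidableEq ι]

/-- real version of an integral matrix -/
def rl (L : Matrix ι ι ℤ) : Matrix ι ι ℝ := L.map (Int.castRingHom ℝ)

theorem rl_herm {L : Matrix ι ι ℤ} (hL : Lᵀ = L) : (rl L).IsHermitian := by
  unfold rl
  ext i j
  rw [conjTranspose_apply, star_trivial, map_apply, map_apply]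
  conv_rhs => rw [← hL]
  rfl

theorem rl_pow (L : Matrix ι ι ℤ) (j : ℕ) : rl (L ^ j) = rl L ^ j :=
  map_pow (Int.castRingHom ℝ).mapMatrix L j

theorem trace_rl_pow {L : Matrix ι ι ℤ} (hL : Lᵀ = L) (j : ℕ) :
    ((trace (L ^ j) : ℤ) : ℝ) = ∑ i, (rl_herm hL).eigenvalues i ^ j := by
  have h1 : ((trace (L ^ j) : ℤ) : ℝ) = trace (rl L ^ j) := by
    rw [← rl_pow, trace, trace]
    push_cast
    rfl
  rw [h1]
  have h2 := (rl_herm hL).spectral_theorem
  conv_lhs => rw [h2]
  rw [← map_pow, Unitary.conjStarAlgAut_apply, trace_mul_comm, ← mul_assoc]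
  simp [diagonal_pow, trace_diagonal]

theorem one_le_prod_abs {L : Matrix ι ι ℤ} (hL : Lᵀ = L) :
    1 ≤ ∏ i ∈ Finset.univ.filter (fun i => (rl_herm hL).eigenvalues i ≠ 0),
      |(rl_herm hL).eigenvalues i| := by
  set lam := (rl_herm hL).eigenvalues with hlam
  set S0 := Finset.univ.filter (fun i => lam i = 0) with hS0
  set S1 := Finset.univ.filter (fun i => lam i ≠ 0) with hS1
  have h1 : (rl L).charpoly = X ^ S0.card * ∏ i ∈ S1, (X - C (lam i)) := by
    rw [(rl_herm hL).charpoly_eq]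
    have : ∏ i, (X - C (lam i)) = (∏ i ∈ S0, (X - C (lam i))) * ∏ i ∈ S1, (X - C (lam i)) :=
      (Finset.prod_filter_mul_prod_filter_not _ _ _).symm
    refine Eq.trans (b := ∏ i, (X - C (lam i))) (Finset.prod_congr rfl fun i _ => by simp [lam]) ?_
    rw [this]
    congr 1
    rw [Finset.prod_congr rfl (g := fun _ => X), Finset.prod_const]
    intro i hi
    have : lam i = 0 := (Finset.mem_filter.mp hi).2
    rw [this, C_0, sub_zero]
  have h2 : (rl L).charpoly = L.charpoly.map (Int.castRingHom ℝ) := charpoly_map _ _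
  have h3 : (((L.charpoly).coeff S0.card : ℤ) : ℝ) = ∏ i ∈ S1, (- lam i) := by
    have h4 : ((rl L).charpoly).coeff S0.card = ∏ i ∈ S1, (- lam i) := by
      rw [h1]
      have := coeff_X_pow_mul (∏ i ∈ S1, (X - C (lam i))) S0.card 0
      rw [zero_add] at this
      rw [this, coeff_zero_eq_eval_zero, eval_prod]
      refine Finset.prod_congr rfl fun i _ => ?_
      simp
    rw [← h4, h2, coeff_map]
    rfl
  have h4 : ∏ i ∈ S1, |lam i| = |(((L.charpoly).coeff S0.card : ℤ) : ℝ)| := by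
    rw [h3, Finset.abs_prod]
    refine Finset.prod_congr rfl fun i _ => ?_
    rw [abs_neg]
  have h5 : (L.charpoly).coeff S0.card ≠ 0 := by
    intro h
    rw [h, Int.cast_zero] at h3
    have := Finset.prod_eq_zero_iff.mp h3.symm
    obtain ⟨i, hi, hi0⟩ := this
    exact (Finset.mem_filter.mp hi).2 (neg_eq_zero.mp hi0)
  rw [h4]
  exact_mod_cast Int.one_le_abs h5

/-- The number of zero eigenvalues. -/
theorem card_zero_le {L : Matrix ι ι ℤ} (hL : Lᵀ = L) (S : Finset ι)
    (hS : ∀ x : ι → ℤ, L *ᵥ x = 0 → (∀ a ∈ S, x a = 0) → x = 0) :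
    (Finset.univ.filter (fun i => (rl_herm hL).eigenvalues i = 0)).card ≤ S.card := by
  classical
  -- the positive definite matrix
  set E : Matrix ι ι ℤ := diagonal (fun a => if a ∈ S then 1 else 0) with hE
  set M : Matrix ι ι ℤ := L * L + E with hM
  have hdet : M.det ≠ 0 := by
    intro h
    obtain ⟨v, hv, hMv⟩ := exists_mulVec_eq_zero_iff.mpr h
    apply hv
    have h1 : (L *ᵥ v) ⬝ᵥ (L *ᵥ v) + v ⬝ᵥ (E *ᵥ v) = 0 := by
      have h2 : v ⬝ᵥ (M *ᵥ v) = 0 := by rw [hMv, dotProduct_zero]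
      rw [hM, add_mulVec, dotProduct_add, ← mulVec_mulVec, dotProduct_mulVec] at h2
      have h3 : v ᵥ* L = L *ᵥ v := by
        conv_lhs => rw [← hL]
        rw [vecMul_transpose]
      rwa [h3] at h2
    have h2 : v ⬝ᵥ (E *ᵥ v) = ∑ a, if a ∈ S then v a * v a else 0 := by
      rw [dotProduct]
      refine Finset.sum_congr rfl fun a _ => ?_
      rw [hE, mulVec_diagonal]
      split_ifs <;> simp
    have h3 : 0 ≤ (L *ᵥ v) ⬝ᵥ (L *ᵥ v) := Finset.sum_nonneg fun a _ => mul_self_nonneg _
    have h4 : 0 ≤ ∑ a, if a ∈ S then v a * v a else 0 := Finset.sum_nonneg fun a _ => by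
      split_ifs
      · exact mul_self_nonneg _
      · exact le_refl _
    rw [h2] at h1
    have h5 : (L *ᵥ v) ⬝ᵥ (L *ᵥ v) = 0 := by linarith
    have h6 : (∑ a, if a ∈ S then v a * v a else 0) = 0 := by linarith
    refine hS v ?_ ?_
    · exact dotProduct_self_eq_zero.mp h5
    · intro a ha
      have := (Finset.sum_eq_zero_iff_of_nonneg (fun a _ => by
        split_ifs
        · exact mul_self_nonneg _
        · exact le_refl _)).mp h6 a (Finset.mem_univ a)
      rw [if_pos ha] at this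
      exact mul_self_eq_zero.mp this
  have hdetR : (rl M).det ≠ 0 := by
    have : (rl M).det = ((M.det : ℤ) : ℝ) := ((Int.castRingHom ℝ).map_det M).symm
    rw [this]
    exact_mod_cast hdet
  have hMR : rl M = rl L * rl L + rl E := by
    rw [hM]
    show (Int.castRingHom ℝ).mapMatrix (L * L + E) = _
    rw [map_add, map_mul]
    rfl
  have hker : ∀ x : ι → ℝ, rl L *ᵥ x = 0 → (∀ a ∈ S, x a = 0) → x = 0 := by
    intro x hx hxS
    by_contra hne
    apply hdetR
    refine exists_mulVec_eq_zero_iff.mp ⟨x, hne, ?_⟩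
    rw [hMR, add_mulVec, ← mulVec_mulVec, hx, mulVec_zero, zero_add]
    ext a
    have : rl E = diagonal (fun a => if a ∈ S then (1 : ℝ) else 0) := by
      rw [hE, rl, diagonal_map (map_zero _)]
      congr 1
      ext a
      split_ifs <;> simp [*]
    rw [this, mulVec_diagonal]
    split_ifs with h
    · rw [hxS a h, mul_zero]
      rfl
    · rw [zero_mul]
      rfl
  have hfin : Module.finrank ℝ (LinearMap.ker (rl L).mulVecLin) ≤ S.card := by
    let F : LinearMap.ker (rl L).mulVecLin →ₗ[ℝ] (S → ℝ) :=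
      { toFun := fun x a => (x : ι → ℝ) a
        map_add' := fun _ _ => rfl
        map_smul' := fun _ _ => rfl }
    have hF : Function.Injective F := by
      rw [← LinearMap.ker_eq_bot, LinearMap.ker_eq_bot']
      rintro ⟨x, hx⟩ h
      refine Subtype.ext (hker x hx ?_)
      intro a ha
      exact congrFun h ⟨a, ha⟩
    have := LinearMap.finrank_le_finrank_of_injective hF
    simpa using this
  have hrank : (rl L).rank + Module.finrank ℝ (LinearMap.ker (rl L).mulVecLin) =
      Fintype.card ι := by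
    have := LinearMap.finrank_range_add_finrank_ker (rl L).mulVecLin
    rw [Module.finrank_fintype_fun_eq_card] at this
    exact this
  have hr := (rl_herm hL).rank_eq_card_non_zero_eigs
  have hc : (Finset.univ.filter (fun i => (rl_herm hL).eigenvalues i = 0)).card +
      Fintype.card {i // (rl_herm hL).eigenvalues i ≠ 0} = Fintype.card ι := by
    rw [Fintype.card_subtype]
    exact Finset.card_filter_add_card_filter_not _
  omega

/-- The main finite dimensional estimate. -/
theorem trace_ge {L : Matrix ι ι ℤ} (hL : Lᵀ = L) (hpos : ∀ i, 0 ≤ (rl_herm hL).eigenvalues i)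
    (K : ℝ) (hK : ∀ i, (rl_herm hL).eigenvalues i ≤ K) (S : Finset ι)
    (hS : ∀ x : ι → ℤ, L *ᵥ x = 0 → (∀ a ∈ S, x a = 0) → x = 0)
    (q : ℝ[X]) (ε δ : ℝ) (hε : 0 < ε) (hε1 : ε < 1)
    (hq : ∀ x ∈ Set.Icc (0 : ℝ) K, |q.eval x - Real.log (x + ε)| ≤ δ) :
    S.card * Real.log ε - δ * Fintype.card ι ≤ q.sum fun j c => c * ((trace (L ^ j) : ℤ) : ℝ) := by
  set lam := (rl_herm hL).eigenvalues with hlam
  have h1 : (q.sum fun j c => c * ((trace (L ^ j) : ℤ) : ℝ)) = ∑ i, q.eval (lam i) := by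
    rw [Polynomial.sum_def]
    simp_rw [trace_rl_pow hL, Finset.mul_sum]
    rw [Finset.sum_comm]
    refine Finset.sum_congr rfl fun i _ => ?_
    rw [Polynomial.eval_eq_sum, Polynomial.sum_def]
  rw [h1]
  have hlogε : Real.log ε < 0 := Real.log_neg hε hε1
  have h2 : ∑ i, (Real.log (lam i + ε) - δ) ≤ ∑ i, q.eval (lam i) := by
    refine Finset.sum_le_sum fun i _ => ?_
    have := hq (lam i) ⟨hpos i, hK i⟩
    rw [abs_le] at this
    linarith [this.1]
  refine le_trans ?_ h2
  rw [Finset.sum_sub_distrib, Finset.sum_const, Finset.card_univ, nsmul_eq_mul]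
  have h3 : (S.card : ℝ) * Real.log ε ≤ ∑ i, Real.log (lam i + ε) := by
    rw [← Finset.sum_filter_add_sum_filter_not Finset.univ (fun i => lam i = 0)]
    have h4 : ∑ i ∈ Finset.univ.filter (fun i => lam i = 0), Real.log (lam i + ε) =
        (Finset.univ.filter (fun i => lam i = 0)).card * Real.log ε := by
      rw [Finset.sum_congr rfl (g := fun _ => Real.log ε), Finset.sum_const, nsmul_eq_mul]
      intro i hi
      rw [(Finset.mem_filter.mp hi).2, zero_add]
    have h5 : 0 ≤ ∑ i ∈ Finset.univ.filter (fun i => ¬ lam i = 0), Real.log (lam i + ε) := by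
      have h6 : ∑ i ∈ Finset.univ.filter (fun i => ¬ lam i = 0), Real.log |lam i| ≤
          ∑ i ∈ Finset.univ.filter (fun i => ¬ lam i = 0), Real.log (lam i + ε) := by
        refine Finset.sum_le_sum fun i hi => ?_
        have hi' : lam i ≠ 0 := (Finset.mem_filter.mp hi).2
        have hp : 0 < lam i := lt_of_le_of_ne (hpos i) (Ne.symm hi')
        rw [abs_of_pos hp]
        exact Real.log_le_log hp (by linarith)
      refine le_trans ?_ h6
      rw [← Real.log_prod (fun i hi => abs_ne_zero.mpr (Finset.mem_filter.mp hi).2)]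
      exact Real.log_nonneg (one_le_prod_abs hL)
    rw [h4]
    have h7 := card_zero_le hL S hS
    have h8 : ((Finset.univ.filter (fun i => lam i = 0)).card : ℝ) ≤ S.card := by exact_mod_cast h7
    nlinarith
  linarith

/-- Eigenvalues are bounded by the row sums. -/
theorem eigenvalue_le {L : Matrix ι ι ℤ} (hL : Lᵀ = L) (K : ℕ)
    (hK : ∀ a, ∑ b, |L a b| ≤ (K : ℤ)) (i : ι) : (rl_herm hL).eigenvalues i ≤ K := by
  have h1 : Module.End.HasEigenvalue (Matrix.toLin' (rl L)) ((rl_herm hL).eigenvalues i) := by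
    refine Module.End.hasEigenvalue_of_hasEigenvector
      (x := ((rl_herm hL).eigenvectorBasis i : ι → ℝ)) ⟨?_, ?_⟩
    · rw [Module.End.mem_eigenspace_iff, toLin'_apply]
      exact (rl_herm hL).mulVec_eigenvectorBasis i
    · intro h
      exact (rl_herm hL).eigenvectorBasis.orthonormal.ne_zero i ((WithLp.ofLp_eq_zero 2).mp h)
  obtain ⟨k, hk⟩ := eigenvalue_mem_ball h1
  rw [Metric.mem_closedBall, Real.dist_eq] at hk
  have h2 : (∑ j ∈ Finset.univ.erase k, ‖rl L k j‖) + |rl L k k| = ((∑ b, |L k b| : ℤ) : ℝ) := by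
    rw [add_comm, ← Finset.add_sum_erase Finset.univ (fun b => |L k b|) (Finset.mem_univ k)]
    push_cast
    congr 1
  have h3 := hK k
  have h4 : ((∑ b, |L k b| : ℤ) : ℝ) ≤ K := by exact_mod_cast h3
  have h5 := le_abs_self ((rl_herm hL).eigenvalues i - rl L k k)
  have h6 := le_abs_self (rl L k k)
  linarith

end Pool.Agent.Lib.MP_9a92d3_gt
end
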