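import Pool.Agent.Lib.MP_9a92d3_gt.CokFin
import Pool.Agent.Lib.MP_9a92d3_gt.LapAlg

section

set_option autoImplicit false

/-!
# An upper bound for the order of the cokernel of an integral matrix
-/

namespace Pool.Agent.Lib.MP_9a92d3_gt

theorem abs_det_le {n : Type} [Fintype n] [DecidableEq n] (A : Matrix n n ℤ) :
    |A.det| ≤ ∏ j, ∑ i, |A i j| := by
  rw [Matrix.det_apply]
  calc |∑ σ : Equiv.Perm n, Equiv.Perm.sign σ • ∏ i, A (σ i) i|
      ≤ ∑ σ : Equiv.Perm n, |Equiv.Perm.sign σ • ∏ i, A (σ i) i| := Finset.abs_sum_le_sum_abs _ _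
    _ = ∑ σ : Equiv.Perm n, ∏ i, |A (σ i) i| := by
        refine Finset.sum_congr rfl fun σ _ => ?_
        rw [← Finset.abs_prod]
        rcases Int.units_eq_one_or (Equiv.Perm.sign σ) with h | h
        · rw [h, one_smul]
        · rw [h, Units.neg_smul, one_smul, abs_neg]
    _ = ∑ f ∈ Finset.univ.image (fun σ : Equiv.Perm n => (σ : n → n)), ∏ i, |A (f i) i| := by
        rw [Finset.sum_image]
        intro σ _ τ _ h
        exact Equiv.coe_fn_injective h
    _ ≤ ∑ f : n → n, ∏ i, |A (f i) i| :=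
        Finset.sum_le_sum_of_subset_of_nonneg (Finset.subset_univ _)
          fun f _ _ => Finset.prod_nonneg fun i _ => abs_nonneg _
    _ = ∏ j, ∑ i, |A i j| := by
        rw [Finset.prod_univ_sum]
        simp

variable {α : Type} [Fintype α] [DecidableEq α] (σ : α ≃ α) (τ : α → α)

/-- the map `σ - 2 + 2 τ` -/
noncomputable def pmap : Z α →ₗ[ℤ] Z α :=
  lin fun a => bas (σ a) - (2 : ℤ) • bas a + (2 : ℤ) • bas (τ a)

theorem pmap_eq (v : Z α) : pmap σ τ v =
    lin (fun a => bas (σ a)) v - (2 : ℤ) • (v - lin (fun a => bas (τ a)) v) := by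
  have : pmap σ τ = lin (fun a => bas (σ a)) -
      (2 : ℤ) • (LinearMap.id - lin (fun a => bas (τ a))) := by
    refine lin_ext fun a => ?_
    unfold pmap
    rw [lin_bas, LinearMap.sub_apply, lin_bas, LinearMap.smul_apply, LinearMap.sub_apply, lin_bas,
      LinearMap.id_apply, smul_sub]
    abel
  rw [this]
  rfl

theorem pmap_injective : Function.Injective (pmap σ τ) := by
  rw [← LinearMap.ker_eq_bot, LinearMap.ker_eq_bot']
  intro v hv
  rw [pmap_eq, sub_eq_zero] at hv
  set T : Z α →ₗ[ℤ] Z α := (lin (fun a => bas (σ.symm a))).comp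
    (LinearMap.id - lin (fun a => bas (τ a))) with hT
  have hinv : ∀ v : Z α, lin (fun a => bas (σ.symm a)) (lin (fun a => bas (σ a)) v) = v := by
    intro v
    have : (lin (fun a => bas (σ.symm a))).comp (lin (fun a => bas (σ a))) =
        (LinearMap.id : Z α →ₗ[ℤ] Z α) := by
      refine lin_ext fun a => ?_
      rw [LinearMap.comp_apply, lin_bas, lin_bas, Equiv.symm_apply_apply, LinearMap.id_apply]
    exact LinearMap.congr_fun this v
  have h1 : v = (2 : ℤ) • T v := by
    have := congrArg (lin (fun a => bas (σ.symm a))) hv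
    rw [hinv, map_smul] at this
    exact this
  have h2 : ∀ n : ℕ, ∃ w : Z α, v = (2 : ℤ) ^ n • w := by
    intro n
    suffices h : v = (2 : ℤ) ^ n • (T ^ n) v from ⟨_, h⟩
    induction n with
    | zero => simp
    | succ n ih =>
      conv_lhs => rw [h1]
      conv_lhs => rw [ih]
      rw [map_smul, smul_smul, pow_succ' T, Module.End.mul_apply, pow_succ' (2 : ℤ)]
  ext a
  rw [Finsupp.zero_apply]
  obtain ⟨w, hw⟩ := h2 (v a).natAbs
  have h3 : (2 : ℤ) ^ (v a).natAbs ∣ v a := by
    refine ⟨w a, ?_⟩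
    conv_lhs => rw [hw]
    rfl
  refine Int.eq_zero_of_abs_lt_dvd h3 ?_
  rw [Int.abs_eq_natAbs]
  exact_mod_cast Nat.lt_two_pow_self

theorem card_pmap : Nat.card (Z α ⧸ LinearMap.range (pmap σ τ)) ≤ 5 ^ Fintype.card α := by
  have h1 := Submodule.natAbs_det_equiv (LinearMap.range (pmap σ τ))
    (LinearEquiv.ofInjective (pmap σ τ) (pmap_injective σ τ))
  rw [← h1]
  have h2 : ((LinearMap.range (pmap σ τ)).subtype ∘ₗ AddMonoidHom.toIntLinearMap
      ((LinearEquiv.ofInjective (pmap σ τ) (pmap_injective σ τ) : Z α →+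
        LinearMap.range (pmap σ τ)))) = pmap σ τ := by
    ext a
    rfl
  rw [h2, ← LinearMap.det_toMatrix (Finsupp.basisSingleOne (R := ℤ) (ι := α))]
  have h3 := abs_det_le (LinearMap.toMatrix (Finsupp.basisSingleOne (R := ℤ) (ι := α))
    (Finsupp.basisSingleOne (R := ℤ) (ι := α)) (pmap σ τ))
  have h4 : ∀ j : α, ∑ i, |LinearMap.toMatrix (Finsupp.basisSingleOne (R := ℤ) (ι := α))
    (Finsupp.basisSingleOne (R := ℤ) (ι := α)) (pmap σ τ) i j| ≤ 5 := by
    intro j
    have h5 : ∀ i, LinearMap.toMatrix (Finsupp.basisSingleOne (R := ℤ) (ι := α))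
        (Finsupp.basisSingleOne (R := ℤ) (ι := α)) (pmap σ τ) i j =
        (bas (σ j) : Z α) i - 2 * (bas j : Z α) i + 2 * (bas (τ j) : Z α) i := by
      intro i
      rw [LinearMap.toMatrix_apply, Finsupp.coe_basisSingleOne]
      unfold pmap
      rw [lin_bas]
      rfl
    have h6 : ∀ b : α, ∑ i, (bas b : Z α) i = 1 := by
      intro b
      rw [Finset.sum_eq_single b]
      · simp [bas]
      · intro c _ hc
        exact Finsupp.single_eq_of_ne hc
      · intro h
        exact absurd (Finset.mem_univ b) h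
    have h7 : ∀ b i : α, 0 ≤ (bas b : Z α) i := by
      intro b i
      unfold bas
      by_cases h : b = i
      · subst h; simp
      · rw [Finsupp.single_eq_of_ne (Ne.symm h)]
    calc ∑ i, |LinearMap.toMatrix (Finsupp.basisSingleOne (R := ℤ) (ι := α))
          (Finsupp.basisSingleOne (R := ℤ) (ι := α)) (pmap σ τ) i j|
        ≤ ∑ i, ((bas (σ j) : Z α) i + 2 * (bas j : Z α) i + 2 * (bas (τ j) : Z α) i) := by
          refine Finset.sum_le_sum fun i _ => ?_
          rw [h5, abs_le]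
          have a1 := h7 (σ j) i
          have a2 := h7 j i
          have a3 := h7 (τ j) i
          constructor <;> linarith
      _ = 5 := by
          rw [Finset.sum_add_distrib, Finset.sum_add_distrib, ← Finset.mul_sum, ← Finset.mul_sum,
            h6, h6, h6]
          norm_num
  have h8 : ∏ j, ∑ i, |LinearMap.toMatrix (Finsupp.basisSingleOne (R := ℤ) (ι := α))
    (Finsupp.basisSingleOne (R := ℤ) (ι := α)) (pmap σ τ) i j| ≤ ∏ _j : α, (5 : ℤ) :=
    Finset.prod_le_prod (fun j _ => Finset.sum_nonneg fun i _ => abs_nonneg _) (fun j _ => h4 j)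
  rw [Finset.prod_const, Finset.card_univ] at h8
  have h9 := h3.trans h8
  rw [Int.abs_eq_natAbs] at h9
  exact_mod_cast h9

theorem finite_pmap : Finite (Z α ⧸ LinearMap.range (pmap σ τ)) := by
  refine finite_of_two_divisible _ ?_
  intro z
  induction z using Submodule.Quotient.induction_on with
  | _ u =>
  have key : ∀ u : Z α, u ∈ LinearMap.range (pmap σ τ) ⊔
      LinearMap.range ((2 : ℤ) • (LinearMap.id : Z α →ₗ[ℤ] Z α)) := by
    refine mem_of_bas _ fun q => ?_
    have h1 : (bas q : Z α) = pmap σ τ (bas (σ.symm q)) +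
        (2 : ℤ) • (bas (σ.symm q) - bas (τ (σ.symm q))) := by
      unfold pmap
      rw [lin_bas, Equiv.apply_symm_apply, smul_sub]
      abel
    rw [h1]
    exact Submodule.add_mem_sup ⟨_, rfl⟩ ⟨bas (σ.symm q) - bas (τ (σ.symm q)), rfl⟩
  obtain ⟨a, ⟨b, rfl⟩, c, ⟨d, rfl⟩, hu⟩ := Submodule.mem_sup.mp (key u)
  refine ⟨Submodule.Quotient.mk d, ?_⟩
  rw [← Submodule.Quotient.mk_smul, Submodule.Quotient.eq]
  refine ⟨b, ?_⟩
  rw [← hu]
  show pmap σ τ b = pmap σ τ b + (2 : ℤ) • d - (2 : ℤ) • d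
  abel

end Pool.Agent.Lib.MP_9a92d3_gt
end

section

set_option autoImplicit false

/-!
# The Laplacian on finitely supported functions, and the von Neumann trace
-/

namespace Pool.Agent.Lib.MP_9a92d3_gt

open Gens

section vec

variable {α : Type}

open Classical in
theorem unitVec_apply (a b : α) :
    (unitVec a : Ell2 α) b = if b = a then 1 else 0 := by
  unfold unitVec
  rw [lp.single_apply, Pi.single_apply]

theorem inner_unitVec (a : α) (ξ : Ell2 α) : inner ℂ (unitVec a) ξ = ξ a := by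
  classical
  unfold unitVec
  rw [lp.inner_single_left]
  simp

theorem norm_unitVec (a : α) : ‖(unitVec a : Ell2 α)‖ = 1 := by
  classical
  unfold unitVec
  rw [lp.norm_single (by norm_num)]
  simp

/-- the embedding of the finitely supported functions -/
noncomputable def iot : Z α →ₗ[ℤ] Ell2 α := lin unitVec

theorem iot_bas (a : α) : (iot (bas a) : Ell2 α) = unitVec a := by
  unfold iot
  rw [lin_bas]

theorem iot_apply (u : Z α) (a : α) : (iot u : Ell2 α) a = ((u a : ℤ) : ℂ) := by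
  classical
  induction u using Finsupp.induction_linear with
  | zero =>
    rw [map_zero]
    simp
  | add u v hu hv =>
    rw [map_add, lp.coeFn_add, Pi.add_apply, hu, hv, Finsupp.add_apply]
    push_cast
    rfl
  | single b n =>
    rw [single_eq_smul_bas, map_smul, iot_bas, ← Int.cast_smul_eq_zsmul ℂ n (unitVec b),
      lp.coeFn_smul, Pi.smul_apply, unitVec_apply, Finsupp.smul_apply, Finsupp.single_apply]
    by_cases h : b = a
    · rw [if_pos h, if_pos h.symm]
      simp
    · rw [if_neg h, if_neg (Ne.symm h)]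
      simp

end vec

variable {Q : Type} [Group Q] (R : Gens Q)

/-- the coboundary operator -/
noncomputable def cob (n : ℕ) : Ell2 (Q × Sh n) →L[ℂ] Ell2 (Q × Sh (n + 1)) := R.cover.coboundary n

theorem cob_apply (n : ℕ) (ξ : Ell2 (Q × Sh n)) (c : Q × Sh (n + 1)) :
    cob R n ξ c = ∑ i : Fin (n + 1), (-1 : ℂ) ^ (i : ℕ) *
      (ξ (R.face i true c) - ξ (R.face i false c)) :=
  R.cover.coboundary_apply n ξ c

/-- the Laplacian -/
noncomputable def lapl (n : ℕ) : Ell2 (Q × Sh n) →L[ℂ] Ell2 (Q × Sh n) := R.cover.laplacian n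

theorem lapl_zero : lapl R 0 = (cob R 0).adjoint ∘L cob R 0 := rfl

theorem lapl_succ (n : ℕ) : lapl R (n + 1) = (cob R (n + 1)).adjoint ∘L cob R (n + 1) +
    cob R n ∘L (cob R n).adjoint := rfl

theorem cob_unitVec (n : ℕ) (a : Q × Sh n) : cob R n (unitVec a) = iot (R.co n (bas a)) := by
  classical
  refine lp.ext (funext fun c => ?_)
  rw [cob_apply, iot_apply, R.co_transpose, R.bdm_bas, Finsupp.finsetSum_apply]
  push_cast
  refine Finset.sum_congr rfl fun i _ => ?_
  have h : ∀ b, (unitVec a : Ell2 (Q × Sh n)) (R.face i b c) =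
      (((bas (R.face i b c) : Z (Q × Sh n)) a : ℤ) : ℂ) := by
    intro b
    rw [unitVec_apply, Finsupp.single_apply]
    split_ifs <;> simp
  rw [h, h]
  show _ = (((-1 : ℤ) ^ (i : ℕ) * ((bas (R.face i true c) : Z (Q × Sh n)) a -
    (bas (R.face i false c) : Z (Q × Sh n)) a) : ℤ) : ℂ)
  push_cast
  ring

theorem cob_iot (n : ℕ) (u : Z (Q × Sh n)) : cob R n (iot u) = iot (R.co n u) := by
  induction u using Finsupp.induction_linear with
  | zero => rw [map_zero, map_zero, map_zero, map_zero]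
  | add u v hu hv => rw [map_add, map_add, map_add, map_add, hu, hv]
  | single b z =>
    have h1 : (iot (z • bas b) : Ell2 (Q × Sh n)) = z • unitVec b := by rw [map_smul, iot_bas]
    rw [single_eq_smul_bas, h1, map_zsmul, cob_unitVec, map_smul, map_smul]

theorem adj_unitVec (n : ℕ) (c : Q × Sh (n + 1)) :
    (cob R n).adjoint (unitVec c) = iot (R.bdm n (bas c)) := by
  refine lp.ext (funext fun a => ?_)
  rw [← inner_unitVec, ContinuousLinearMap.adjoint_inner_right, ← inner_conj_symm, inner_unitVec,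
    cob_unitVec, iot_apply, iot_apply, R.co_transpose]
  simp

theorem adj_iot (n : ℕ) (u : Z (Q × Sh (n + 1))) :
    (cob R n).adjoint (iot u) = iot (R.bdm n u) := by
  induction u using Finsupp.induction_linear with
  | zero => rw [map_zero, map_zero, map_zero, map_zero]
  | add u v hu hv => rw [map_add, map_add, map_add, map_add, hu, hv]
  | single b z =>
    have h1 : (iot (z • bas b) : Ell2 (Q × Sh (n + 1))) = z • unitVec b := by
      rw [map_smul, iot_bas]
    rw [single_eq_smul_bas, h1, map_zsmul, adj_unitVec, map_smul, map_smul]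

theorem lapl_iot (n : ℕ) (u : Z (Q × Sh n)) : lapl R n (iot u) = iot (R.lap n u) := by
  match n, u with
  | 0, u =>
    rw [lapl_zero, ContinuousLinearMap.comp_apply, cob_iot, adj_iot]
    rfl
  | n + 1, u =>
    rw [lapl_succ, add_apply, ContinuousLinearMap.comp_apply,
      ContinuousLinearMap.comp_apply, cob_iot, adj_iot, adj_iot, cob_iot, ← map_add]
    rfl

theorem lapl_pow_iot (n j : ℕ) (u : Z (Q × Sh n)) :
    (lapl R n ^ j) (iot u) = iot ((R.lap n ^ j) u) := by
  induction j with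
  | zero => rfl
  | succ j ih =>
    rw [pow_succ', pow_succ', Module.End.mul_apply, mul_apply_eq_comp, ih, lapl_iot]

/-- diagonal entries of the powers -/
theorem inner_lapl_pow (n j : ℕ) (g : Q) (s : Sh n) :
    (inner ℂ (unitVec (g, s)) ((lapl R n ^ j) (unitVec (g, s)))).re =
      (((R.lap n ^ j) (bas (1, s)) (1, s) : ℤ) : ℝ) := by
  rw [inner_unitVec, ← iot_bas, lapl_pow_iot, iot_apply, R.diag_eq, Complex.intCast_re]

/-! ### The trace -/

/-- the trace -/
noncomputable def vtr (n : ℕ) (T : Ell2 (Q × Sh n) →L[ℂ] Ell2 (Q × Sh n)) : ℝ :=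
  R.cover.vnTrace n T

theorem exists_rep (n : ℕ) : ∃ g : Sh n → Q, ∀ T : Ell2 (Q × Sh n) →L[ℂ] Ell2 (Q × Sh n),
    vtr R n T = ∑ s : Sh n, (inner ℂ (unitVec (g s, s)) (T (unitVec (g s, s)))).re := by
  let _ := prodAct Q (Sh n)
  let f : MulAction.orbitRel.Quotient Q (Q × Sh n) → Sh n :=
    Quotient.lift (fun c : Q × Sh n => c.2) (by
      rintro a b ⟨g, hg⟩
      have : (g * b.1, b.2) = a := hg
      rw [← this])
  have hf : Function.Bijective f := by
    constructor
    · intro a b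
      induction a using Quotient.inductionOn' with
      | h a =>
      induction b using Quotient.inductionOn' with
      | h b =>
      intro h
      have h' : a.2 = b.2 := h
      refine Quotient.sound' ⟨a.1 * b.1⁻¹, ?_⟩
      refine Prod.ext ?_ h'.symm
      show a.1 * b.1⁻¹ * b.1 = a.1
      rw [inv_mul_cancel_right]
    · intro s
      exact ⟨Quotient.mk'' (1, s), rfl⟩
  let e := Equiv.ofBijective f hf
  have hout : ∀ o : MulAction.orbitRel.Quotient Q (Q × Sh n), (Quotient.out o).2 = f o := by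
    intro o
    conv_rhs => rw [← Quotient.out_eq o]
    rfl
  refine ⟨fun s => (Quotient.out (e.symm s)).1, fun T => ?_⟩
  have h1 : vtr R n T = ∑ᶠ o : MulAction.orbitRel.Quotient Q (Q × Sh n),
      (inner ℂ (unitVec (Quotient.out o)) (T (unitVec (Quotient.out o)))).re := rfl
  rw [h1, ← finsum_comp_equiv e.symm, finsum_eq_sum_of_fintype]
  refine Finset.sum_congr rfl fun s _ => ?_
  have h2 : Quotient.out (e.symm s) = ((Quotient.out (e.symm s)).1, s) := by
    refine Prod.ext rfl ?_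
    rw [hout]
    exact e.apply_symm_apply s
  rw [← h2]

end Pool.Agent.Lib.MP_9a92d3_gt
end

section

set_option autoImplicit false

/-!
# Harmonic chains are invariant under the central translation
-/

namespace Pool.Agent.Lib.MP_9a92d3_gt

open Gens

section dot

variable {α : Type} [Fintype α]

/-- the standard pairing -/
def dt (u v : Z α) : ℤ := ∑ a, u a * v a

theorem dt_self (u : Z α) (h : dt u u = 0) : u = 0 := by
  ext a
  have := (Finset.sum_eq_zero_iff_of_nonneg (fun a _ => mul_self_nonneg (u a))).mp h a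
    (Finset.mem_univ a)
  exact mul_self_eq_zero.mp this

theorem dt_comm (u v : Z α) : dt u v = dt v u := by
  unfold dt
  exact Finset.sum_congr rfl fun a _ => mul_comm _ _

theorem dt_add (u v w : Z α) : dt u (v + w) = dt u v + dt u w := by
  unfold dt
  rw [← Finset.sum_add_distrib]
  exact Finset.sum_congr rfl fun a _ => mul_add _ _ _

theorem dt_smul (u v : Z α) (c : ℤ) : dt u (c • v) = c * dt u v := by
  unfold dt
  rw [Finset.mul_sum]
  refine Finset.sum_congr rfl fun a _ => ?_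
  rw [Finsupp.smul_apply, smul_eq_mul]
  ring

theorem dt_self_nonneg (u : Z α) : 0 ≤ dt u u :=
  Finset.sum_nonneg fun a _ => mul_self_nonneg _

theorem apply_eq_sum {β : Type} (F : Z α →ₗ[ℤ] Z β) (u : Z α) (b : β) :
    F u b = ∑ a, u a * F (bas a) b := by
  rw [lin_eq_sum, Finsupp.sum_fintype]
  intro a
  exact zero_mul _

end dot

variable {Q : Type} [Group Q] [Fintype Q] (R : Gens Q)

theorem dt_bdm (n : ℕ) (u : Z (Q × Sh (n + 1))) (v : Z (Q × Sh n)) :
    dt (R.bdm n u) v = dt u (R.co n v) := by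
  unfold dt
  simp_rw [apply_eq_sum (R.bdm n) u, apply_eq_sum (R.co n) v, Finset.sum_mul, Finset.mul_sum]
  rw [Finset.sum_comm]
  refine Finset.sum_congr rfl fun a _ => Finset.sum_congr rfl fun b _ => ?_
  rw [R.co_transpose]
  ring

/-- cycles -/
def Cyc : ∀ n : ℕ, Z (Q × Sh n) → Prop
  | 0, _ => True
  | n + 1, x => R.bdm n x = 0

theorem lap_ker (n : ℕ) (x : Z (Q × Sh n)) (h : R.lap n x = 0) : R.co n x = 0 ∧ Cyc R n x := by
  have h1 : dt x (R.lap n x) = 0 := by
    rw [h]
    unfold dt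
    simp
  match n, x, h, h1 with
  | 0, x, h, h1 =>
    refine ⟨dt_self _ ?_, trivial⟩
    rw [← h1, dt_comm x]
    exact (dt_bdm R 0 (R.co 0 x) x).symm
  | n + 1, x, h, h1 =>
    have h2 : dt x (R.lap (n + 1) x) = dt (R.co (n + 1) x) (R.co (n + 1) x) +
        dt (R.bdm n x) (R.bdm n x) := by
      show dt x (R.bdm (n + 1) (R.co (n + 1) x) + R.co n (R.bdm n x)) = _
      rw [dt_add, dt_comm x (R.bdm (n + 1) (R.co (n + 1) x)), dt_bdm, ← dt_bdm R n]
    rw [h2] at h1
    have h3 := dt_self_nonneg (R.co (n + 1) x)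
    have h4 := dt_self_nonneg (R.bdm n x)
    exact ⟨dt_self _ (by linarith), dt_self _ (by linarith)⟩

variable {P : Type} [Group P] (R4 : Gens4 P) (k : ℕ) [NeZero k]

/-- the central element -/
def ct (P : Type) [Group P] (k : ℕ) : PK P k := (1, Multiplicative.ofAdd 1)

theorem ct_mul (q : PK P k) : ct P k * q = (q.1, q.2 * Multiplicative.ofAdd 1) :=
  Prod.ext (one_mul _) (mul_comm _ _)

theorem ct_mul' (q : PK P k) : q * (R4.RK k).lab .t = ct P k * q := by
  rw [ct_mul]
  exact Prod.ext (mul_one _) rfl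

/-- translation -/
noncomputable def trS (S : Type) (k : ℕ) : Z (PK P k × S) →ₗ[ℤ] Z (PK P k × S) :=
  lin fun c => bas (ct P k * c.1, c.2)

theorem trS_bas (S : Type) (q : PK P k) (s : S) :
    trS S k (bas (q, s)) = bas (ct P k * q, s) := by
  unfold trS
  rw [lin_bas]

noncomputable def A0 : Z (PK P k × Unit) →ₗ[ℤ] Z (PK P k × Ed) := lin fun c => bas (c.1, Ed.t)

theorem A0_bas (q : PK P k) (u : Unit) : A0 k (bas (q, u)) = bas (q, Ed.t) := by
  unfold A0
  rw [lin_bas]

theorem bd_A0 (x : Z (PK P k × Unit)) : Gens4.b0 (R4.RK k) (A0 k x) = trS Unit k x - x := by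
  have : (Gens4.b0 (R4.RK k)).comp (A0 k) = trS Unit k - LinearMap.id := by
    refine lin_ext ?_
    rintro ⟨q, ⟨⟩⟩
    rw [LinearMap.comp_apply, LinearMap.sub_apply, trS_bas, A0_bas, Gens4.b0_bas, ct_mul']
    rfl
  exact LinearMap.congr_fun this x

noncomputable def A1 : Z (PK P k × Ed) →ₗ[ℤ] Z (PK P k × Sq) :=
  lin fun c => match c.2 with
    | .x => bas (c.1, .tx)
    | .w => bas (c.1, .tw)
    | .v => bas (c.1, .tv)
    | .y => bas (c.1, .ty)
    | .t => 0

theorem bd_A1 (x : Z (PK P k × Ed)) :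
    trS Ed k x - x = A0 k (Gens4.b0 (R4.RK k) x) - Gens4.b1 (R4.RK k) (A1 k x) := by
  have : trS Ed k - LinearMap.id =
      (A0 k).comp (Gens4.b0 (R4.RK k)) - (Gens4.b1 (R4.RK k)).comp (A1 k) := by
    refine lin_ext ?_
    rintro ⟨q, e⟩
    rw [LinearMap.sub_apply, LinearMap.sub_apply, LinearMap.comp_apply, LinearMap.comp_apply,
      trS_bas, Gens4.b0_bas, map_sub, A0_bas, A0_bas, ← ct_mul' R4 k q]
    unfold A1
    rw [lin_bas]
    cases e <;> simp only [Gens4.b1_bas, Sq.sides, LinearMap.id_apply, map_zero] <;> abel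
  exact LinearMap.congr_fun this x

/-- translation on `ℤ[Q]` -/
noncomputable def trE : Z (PK P k) →ₗ[ℤ] Z (PK P k) := lin fun q => bas (ct P k * q)

theorem trE_bas (q : PK P k) : trE k (bas q) = bas (ct P k * q) := by
  unfold trE
  rw [lin_bas]

theorem ct_mul_mk (p : P) (j : Multiplicative (ZMod k)) :
    ct P k * (p, j) = (p, j * Multiplicative.ofAdd 1) := ct_mul k (p, j)

theorem tr_psi2 (u : ZMod k → Z (P × Sq4)) (v : ZMod k → Z (P × Ed4)) (e : Z (PK P k)) :
    trS Sq k (Gens4.psi2 k ((u, v), e)) - Gens4.psi2 k ((u, v), e) =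
      Gens4.psi2 k ((Circle.tau (Z (P × Sq4)) k u, Circle.tau (Z (P × Ed4)) k v),
        trE k e - e) := by
  have : (trS Sq k).comp (Gens4.psi2 k) - Gens4.psi2 k =
      (Gens4.psi2 k).comp (((Circle.tau (Z (P × Sq4)) k).prodMap
        (Circle.tau (Z (P × Ed4)) k)).prodMap (trE k - LinearMap.id)) := by
    refine LinearMap.prod_ext (LinearMap.prod_ext (Gens4.pi_lin_ext k ?_) (Gens4.pi_lin_ext k ?_))
      (lin_ext ?_)
    · rintro j ⟨p, e⟩
      simp [Gens4.psi2, Gens4.sp_single, Gens4.tau_single, trS_bas, ct_mul_mk]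
    · rintro j ⟨p, e⟩
      simp [Gens4.psi2, Gens4.sp_single, Gens4.tau_single, trS_bas, ct_mul_mk]
    · rintro ⟨p, j⟩
      simp [Gens4.psi2, trS_bas, trE_bas, ct_mul_mk]
  exact LinearMap.congr_fun this ((u, v), e)

theorem tr_psi3 (u : ZMod k → PUnit) (v : ZMod k → Z (P × Sq4)) (e : Z (PK P k)) :
    trS Cb k (Gens4.psi3 k ((u, v), e)) - Gens4.psi3 k ((u, v), e) =
      Gens4.psi3 k ((0, Circle.tau (Z (P × Sq4)) k v), trE k e - e) := by
  have : (trS Cb k).comp (Gens4.psi3 k) - Gens4.psi3 k =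
      (Gens4.psi3 k).comp (((0 : (ZMod k → PUnit) →ₗ[ℤ] (ZMod k → PUnit)).prodMap
        (Circle.tau (Z (P × Sq4)) k)).prodMap (trE k - LinearMap.id)) := by
    refine LinearMap.prod_ext (LinearMap.prod_ext (Subsingleton.elim _ _)
      (Gens4.pi_lin_ext k ?_)) (lin_ext ?_)
    · rintro j ⟨p, e⟩
      simp [Gens4.psi3, Gens4.sp_single, Gens4.tau_single, trS_bas, ct_mul_mk]
    · rintro ⟨p, j⟩
      simp [Gens4.psi3, trS_bas, trE_bas, ct_mul_mk, -Finsupp.smul_single]
  exact LinearMap.congr_fun this ((u, v), e)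

theorem fK_injective [Finite P] : Function.Injective (R4.fK k) := by
  classical
  have := Fintype.ofFinite (PK P k)
  exact pmap_injective (Equiv.mulRight ((R4.RK k).lab .y)) (fun q => q * (R4.RK k).lab .x)

theorem cyc2 [Finite P] (x : Z (PK P k × Sq)) (hx' : Gens4.b1 (R4.RK k) x = 0) :
    ∃ (N : ℤ) (η : Z (PK P k × Cb)), N ≠ 0 ∧
      N • (trS Sq k x - x) = Gens4.b2 (R4.RK k) η := by
  obtain ⟨⟨⟨u, v⟩, e⟩, hphi⟩ : ∃ w, R4.phi2 k x = w := ⟨_, rfl⟩
  have h1 := R4.comp2 k x
  have h2 := R4.comm1 k x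
  rw [hx', map_zero, hphi] at h2
  have h2' : R4.t1 k (u, v) = 0 := h2
  rw [Gens4.t1_apply] at h2'
  have h3 : Circle.ptw k R4.d1 u - Circle.tau (Z (P × Ed4)) k v = 0 := congrArg Prod.fst h2'
  rw [hphi] at h1
  have hfin := finite_coker ((R4.RK k).lab .x) ((R4.RK k).lab .y)
  set N : ℕ := Nat.card (Gens4.Coker ((R4.RK k).lab .x) ((R4.RK k).lab .y)) with hN
  have hN0 : (N : ℤ) ≠ 0 := by
    have : 0 < N := Nat.card_pos
    exact_mod_cast this.ne'
  obtain ⟨e', he'⟩ : ∃ e', R4.fK k e' = (N : ℤ) • (trE k e - e) := by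
    have : (Submodule.Quotient.mk ((N : ℤ) • (trE k e - e)) :
        Gens4.Coker ((R4.RK k).lab .x) ((R4.RK k).lab .y)) = 0 := by
      rw [Submodule.Quotient.mk_smul, natCast_zsmul]
      exact card_nsmul_eq_zero'
    exact (Submodule.Quotient.mk_eq_zero _).mp this
  have h4 := tr_psi2 k u v e
  have h5 := R4.cmm2 k ((0, (N : ℤ) • u), e')
  rw [Gens4.t2_apply, he'] at h5
  have h6 : Gens4.b2 (R4.RK k) (Gens4.psi3 k ((0, (N : ℤ) • u), e')) =
      (N : ℤ) • (trS Sq k (Gens4.psi2 k ((u, v), e)) - Gens4.psi2 k ((u, v), e)) := by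
    rw [h5, h4, ← map_smul, map_smul (Circle.tau (Z (P × Sq4)) k), map_smul (Circle.ptw k R4.d1)]
    have h7 : Circle.ptw k R4.d1 u = Circle.tau (Z (P × Ed4)) k v := sub_eq_zero.mp h3
    rw [h7]
    rfl
  have h8 : ∀ z : Z (PK P k × Cb), trS Sq k (Gens4.b2 (R4.RK k) z) =
      Gens4.b2 (R4.RK k) (trS Cb k z) := fun z =>
    LinearMap.congr_fun ((R4.RK k).tr_bdm (ct P k) 2) z
  refine ⟨N, (Gens4.psi3 k ((0, (N : ℤ) • u), e') : Z (PK P k × Cb)) -
    (N : ℤ) • (trS Cb k (Gens4.hty k x) - Gens4.hty k x), hN0, ?_⟩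
  rw [map_sub, h6, map_smul, map_sub, ← h8, ← h1, map_sub, ← smul_sub]
  congr 1
  abel

theorem cyc3 [Finite P] (x : Z (PK P k × Cb)) (hx' : Gens4.b2 (R4.RK k) x = 0) :
    trS Cb k x - x = 0 := by
  obtain ⟨⟨⟨u, v⟩, e⟩, hphi⟩ : ∃ w, Gens4.phi3 k x = w := ⟨_, rfl⟩
  have h1 := R4.comp3 k x
  have h2 := R4.comm2 k x
  rw [hx', map_zero, sub_eq_zero] at h1
  rw [hx', map_zero, hphi] at h2
  have h3 : R4.t2 k (u, v) = 0 := congrArg Prod.fst h2
  have h4 : R4.fK k e = 0 := congrArg Prod.snd h2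
  rw [Gens4.t2_apply] at h3
  have h5 : Circle.tau (Z (P × Sq4)) k v = 0 := congrArg Prod.fst h3
  have h6 : e = 0 := fK_injective R4 k (by rw [h4, map_zero])
  have h7 := tr_psi3 k u v e
  rw [h5, h6, map_zero, sub_zero] at h7
  rw [hphi, h6] at h1
  rw [h1] at h7
  refine h7.trans ?_
  exact map_zero _

/-- On cycles the translation acts trivially up to boundaries and torsion. -/
theorem cyc_boundary [Finite P] (n : ℕ) (x : Z (PK P k × Sh n)) (hx : Cyc (R4.RK k) n x) :
    ∃ (N : ℤ) (η : Z (PK P k × Sh (n + 1))), N ≠ 0 ∧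
      N • (tr (ct P k) n x - x) = (R4.RK k).bdm n η := by
  match n, x, hx with
  | 0, x, hx =>
    refine ⟨1, A0 k x, one_ne_zero, ?_⟩
    rw [one_smul]
    exact (bd_A0 R4 k x).symm
  | 1, x, hx =>
    refine ⟨1, - A1 k x, one_ne_zero, ?_⟩
    rw [one_smul]
    have h := bd_A1 R4 k x
    have hx' : Gens4.b0 (R4.RK k) x = 0 := hx
    rw [hx', map_zero, zero_sub, ← map_neg] at h
    exact h
  | 2, x, hx => exact cyc2 R4 k x hx
  | 3, x, hx =>
    refine ⟨1, 0, one_ne_zero, ?_⟩
    rw [one_smul, map_zero]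
    exact cyc3 R4 k x hx
  | n + 4, x, hx =>
    refine ⟨1, 0, one_ne_zero, ?_⟩
    rw [map_zero]
    have : Subsingleton (Z (PK P k × Sh (n + 4))) := inferInstanceAs (Subsingleton (Z (PK P k × Empty)))
    exact Subsingleton.elim _ _

/-- Harmonic chains are invariant under translation. -/
theorem harm_inv [Finite P] (n : ℕ) (x : Z (PK P k × Sh n)) (h : (R4.RK k).lap n x = 0) :
    tr (ct P k) n x = x := by
  have := Fintype.ofFinite (PK P k)
  obtain ⟨h1, h2⟩ := lap_ker (R4.RK k) n x h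
  obtain ⟨N, η, hN, hη⟩ := cyc_boundary R4 k n x h2
  have h3 : (R4.RK k).co n (tr (ct P k) n x - x) = 0 := by
    have h4 := LinearMap.congr_fun ((R4.RK k).tr_co (ct P k) n) x
    have h5 : (R4.RK k).co n (tr (ct P k) n x) = tr (ct P k) (n + 1) ((R4.RK k).co n x) := h4.symm
    rw [map_sub, h5, h1, map_zero, sub_zero]
  have h4 : N * dt (tr (ct P k) n x - x) (tr (ct P k) n x - x) = 0 := by
    rw [← dt_smul, hη, dt_comm, dt_bdm, h3]
    unfold dt
    simp
  have h5 := (mul_eq_zero.mp h4).resolve_left hN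
  exact sub_eq_zero.mp (dt_self _ h5)

end Pool.Agent.Lib.MP_9a92d3_gt
end
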